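import Pool.Agent.Helper64.FL.StC

/-! QCF: the configuration `preCif`. -/

set_option autoImplicit false

namespace Pool.Agent.Helper64.FL

open Pool.Agent.Helper64.CT Pool.Agent.Helper64.DT
open Pool.Agent.Helper64.HG (Ovl Model Circ IC HellyCircle ChordModel)

theorem qcf_nd {V : Type} {G : SimpleGraph V} : ∀ (l : List V) (a : V),
    IPt G (l ++ [a]) → a ∉ l
  | [], _, _ => by simp
  | b :: l, a, h => by
      rw [List.cons_append] at h
      have h1 := h.1
      have h2 := qcf_nd l a h.2.2.2
      intro hm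
      rcases List.mem_cons.1 hm with rfl | hm
      · exact h1 a (by simp) rfl
      · exact h2 hm

theorem st_QCF : ST_QCF := by
  intro V G hN x y z a l b m m' hxy hxz hyz hxa hma ay az hyb hmb bx bz hzm hzm' hmm mx my m'x m'y
    hP hl
  have hab : a ≠ b := by
    rintro rfl
    exact ay.2 hyb
  have hI : IPt G (a :: (l ++ [b])) := by
    rcases hP with ⟨h, -⟩ | ⟨-, h⟩
    · exact absurd h hab
    · exact h
  have al : a ∉ l := fun hm => hI.1 a (List.mem_append_left _ hm) rfl
  have bl : b ∉ l := qcf_nd l b hI.2.2.2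
  have e54 : a ≠ m' := by
    rintro rfl
    exact az.2 hzm'
  have e63 : b ≠ m := by
    rintro rfl
    exact bz.2 hzm
  have ex : ∀ {v u : V}, u ∈ Far G v → u ≠ v ∧ ¬ G.Adj u v := fun h =>
    ⟨h.1, fun h' => h.2 h'.symm⟩
  have d30 := ex mx
  have d31 := ex my
  have d40 := ex m'x
  have d41 := ex m'y
  have d51 := ex ay
  have d52 := ex az
  have d60 := ex bx
  have d62 := ex bz
  have x0 : x ∉ l := fun hm => (hl x hm).1.1 rfl
  have x1 : y ∉ l := fun hm => (hl y hm).2.1.1 rfl
  have x2 : z ∉ l := fun hm => (hl z hm).2.2.1 rfl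
  have x3 : m ∉ l := fun hm => (hl m hm).2.2.2 hzm
  have x4 : m' ∉ l := fun hm => (hl m' hm).2.2.2 hzm'
  have c0 : ∀ u ∈ l, ¬ G.Adj x u := fun u hu => (hl u hu).1.2
  have c1 : ∀ u ∈ l, ¬ G.Adj y u := fun u hu => (hl u hu).2.1.2
  have c2 : ∀ u ∈ l, ¬ G.Adj z u := fun u hu => (hl u hu).2.2.2
  have e32 := hzm.symm
  have e42 := hzm'.symm
  have e50 := hxa.symm
  have e53 := hma.symm
  have e61 := hyb.symm
  have e64 := hmb.symm
  refine hN preCif (by simp [preCs]) (fun i => ([x, y, z, m, m', a, b] : List V).getD i x)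
    [l] ⟨?_, ?_, ?_, ?_, ?_, rfl, ?_, ?_, ?_, ?_, ?_⟩
  · intro y hy; fin_cases hy <;> assumption
  · intro y hy; fin_cases hy <;> assumption
  · intro y hy; fin_cases hy <;> assumption
  · intro y hy; exact absurd hy (by simp [preCif])
  · intro y hy; exact absurd hy (by simp [preCif])
  · intro y hy; fin_cases hy; intro h; exact absurd h hab
  · intro y hy; fin_cases hy; intro h; exact hI
  · intro y hy i hi
    have hi' : i < 7 := hi
    fin_cases hy; interval_cases i <;> assumption
  · intro y hy i hi hU h1 h2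
    have hi' : i < 7 := hi
    fin_cases hy; interval_cases i <;>
      first
      | assumption
      | exact absurd rfl h1
      | exact absurd rfl h2
      | exact absurd (by simp) hU
  · simp

end Pool.Agent.Helper64.FL
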